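import Pool.Agent.H43.BZ.Stm

/-!
# SUP: continuity in time of the supremum over the torus of a velocity moment
-/

set_option autoImplicit false

open MeasureTheory Metric Set Filter Topology
open scoped RealInnerProductSpace ENNReal

namespace Pool.Agent.H643.BZ

open Pool.Agent.H43.BZ

/-- the unit cube -/
def cube (d : ℕ) : Set (E d) := (fun z : Fin d → ℝ => WithLp.toLp 2 z) '' (Set.pi univ fun _ => Icc (0 : ℝ) 1)

theorem cube_compact (d : ℕ) : IsCompact (cube d) :=
  (isCompact_univ_pi fun _ => isCompact_Icc).image (PiLp.continuous_toLp 2 _)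

theorem per_int {d : ℕ} {β : Type} (g : E d → β)
    (hg : ∀ x, ∀ i, g (x + EuclideanSpace.single i 1) = g x) (n : Fin d → ℤ) (x : E d) :
    g (x + ∑ i, n i • (EuclideanSpace.single i 1 : E d)) = g x := by
  have h : Function.Periodic g (∑ i, n i • (EuclideanSpace.single i 1 : E d)) := by
    refine Finset.sum_induction (fun i => n i • (EuclideanSpace.single i 1 : E d))
      (fun c => Function.Periodic g c) (fun a b ha hb => ha.add_period hb) (fun x => by simp)
      (fun i _ => ?_)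
    exact Function.Periodic.zsmul (fun x => hg x i) (n i)
  exact h x

theorem exists_cube {d : ℕ} {β : Type} (g : E d → β)
    (hg : ∀ x, ∀ i, g (x + EuclideanSpace.single i 1) = g x) (x : E d) :
    ∃ y ∈ cube d, g y = g x := by
  refine ⟨x + ∑ i, (-⌊x i⌋) • (EuclideanSpace.single i 1 : E d), ?_, per_int g hg _ x⟩
  refine ⟨fun i => Int.fract (x i), ?_, ?_⟩
  · intro i _
    exact ⟨Int.fract_nonneg _, (Int.fract_lt_one _).le⟩
  · ext j
    simp [Finset.sum_apply, Int.fract, sub_eq_add_neg, Pi.single_apply]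

/-- the bound of the integrand -/
theorem bd {d : ℕ} {p C : ℝ} {g : E d → ℝ} (v : E d) (h0 : 0 ≤ g v)
    (h : (1 + ‖v‖) ^ (⌈p⌉₊ + d + 1) * g v ≤ C) :
    ‖g v * (1 + ‖v‖) ^ p‖ ≤ C * (1 + ‖v‖) ^ (-((d : ℝ) + 1)) := by
  have h1 : 1 ≤ 1 + ‖v‖ := by linarith [norm_nonneg v]
  have hp : 0 < 1 + ‖v‖ := by linarith
  rw [Real.norm_of_nonneg (mul_nonneg h0 (Real.rpow_nonneg hp.le _))]
  have e1 : (1 + ‖v‖) ^ p ≤ (1 + ‖v‖) ^ (((⌈p⌉₊ + d + 1 : ℕ) : ℝ)) * (1 + ‖v‖) ^ (-((d : ℝ) + 1)) := by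
    rw [← Real.rpow_add hp]
    refine Real.rpow_le_rpow_of_exponent_le h1 ?_
    have := Nat.le_ceil p
    push_cast
    linarith
  calc g v * (1 + ‖v‖) ^ p
      ≤ g v * ((1 + ‖v‖) ^ (((⌈p⌉₊ + d + 1 : ℕ) : ℝ)) * (1 + ‖v‖) ^ (-((d : ℝ) + 1))) :=
        mul_le_mul_of_nonneg_left e1 h0
    _ = ((1 + ‖v‖) ^ (⌈p⌉₊ + d + 1) * g v) * (1 + ‖v‖) ^ (-((d : ℝ) + 1)) := by
        rw [Real.rpow_natCast]; ring
    _ ≤ C * (1 + ‖v‖) ^ (-((d : ℝ) + 1)) :=
        mul_le_mul_of_nonneg_right h (Real.rpow_nonneg hp.le _)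

theorem bd_int (d : ℕ) (C : ℝ) : Integrable (fun v : E d => C * (1 + ‖v‖) ^ (-((d : ℝ) + 1))) := by
  refine Integrable.const_mul ?_ C
  refine integrable_one_add_norm ?_
  rw [finrank_euclideanSpace_fin]
  linarith

theorem SUP : S_SUP := by
  intro d T p f hT hp hnn hc hper hdec
  -- continuity of a slice
  have hsl : ∀ t ∈ Ico 0 T, ∀ x, Continuous (f t x) := by
    intro t ht x
    have h1 : ContinuousOn (fun v : E d => f t x v) univ := by
      have := hc.comp (f := fun v : E d => ((t, x, v) : ℝ × E d × E d)) (s := univ)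
        (by fun_prop) (fun v _ => ⟨ht, mem_univ _⟩)
      exact this
    exact continuousOn_univ.mp h1
  have hmeas : ∀ t ∈ Ico 0 T, ∀ x, AEStronglyMeasurable (fun v => f t x v * (1 + ‖v‖) ^ p)
      (volume : Measure (E d)) := by
    intro t ht x
    refine ((hsl t ht x).mul ?_).aestronglyMeasurable
    exact (by fun_prop : Continuous fun v : E d => 1 + ‖v‖).rpow_const
      (fun v => Or.inr hp)
  -- the moment
  set M : ℝ → E d → ℝ := fun t x => ∫ v, f t x v * (1 + ‖v‖) ^ p with hM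
  -- joint continuity of the moment
  have hMc : ∀ T' ∈ Ico 0 T, ContinuousOn (fun q : ℝ × E d => M q.1 q.2) (Icc 0 T' ×ˢ univ) := by
    intro T' hT'
    obtain ⟨C, hC⟩ := hdec T' hT' (⌈p⌉₊ + d + 1)
    have hsub : ∀ t ∈ Icc 0 T', t ∈ Ico 0 T := fun t ht => ⟨ht.1, lt_of_le_of_lt ht.2 hT'.2⟩
    refine continuousOn_of_dominated (bound := fun v : E d => C * (1 + ‖v‖) ^ (-((d : ℝ) + 1)))
      ?_ ?_ (bd_int d C) ?_
    · intro q hq
      exact hmeas q.1 (hsub _ hq.1) q.2
    · intro q hq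
      exact Eventually.of_forall fun v => bd v (hnn q.1 (hsub _ hq.1) q.2 v) (hC q.1 hq.1 q.2 v)
    · refine Eventually.of_forall fun v => ?_
      refine ContinuousOn.mul ?_ continuousOn_const
      have := hc.comp (f := fun q : ℝ × E d => ((q.1, q.2, v) : ℝ × E d × E d))
        (s := Icc 0 T' ×ˢ univ) (by fun_prop) (fun q hq => ⟨hsub _ hq.1, mem_univ _⟩)
      exact this
  have hMper : ∀ t ∈ Ico 0 T, ∀ x, ∀ i, M t (x + EuclideanSpace.single i 1) = M t x := by
    intro t ht x i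
    simp only [hM, hper t ht x _ i]
  have hMcube : ∀ t ∈ Ico 0 T, ∀ x, ∃ y ∈ cube d, M t y = M t x := fun t ht x =>
    exists_cube (M t) (hMper t ht) x
  have hrange : ∀ t ∈ Ico 0 T, range (M t) = M t '' cube d := by
    intro t ht
    ext z
    constructor
    · rintro ⟨x, rfl⟩
      obtain ⟨y, hy, e⟩ := hMcube t ht x
      exact ⟨y, hy, e⟩
    · rintro ⟨y, _, rfl⟩
      exact ⟨y, rfl⟩
  -- the extension to all times
  have hext : ∀ T' ∈ Ico 0 T, ∃ G : ℝ → E d → ℝ, Continuous (fun q : ℝ × E d => G q.1 q.2) ∧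
      ∀ t ∈ Icc 0 T', G t = M t := by
    intro T' hT'
    refine ⟨fun t => M (projIcc 0 T' hT'.1 t), ?_, ?_⟩
    · have := (hMc T' hT').comp (f := fun q : ℝ × E d => (((projIcc 0 T' hT'.1 q.1 : Icc 0 T') : ℝ), q.2))
        (s := univ) ?_ (fun q _ => ⟨(projIcc 0 T' hT'.1 q.1).2, mem_univ _⟩)
      · exact continuousOn_univ.mp this
      · refine Continuous.continuousOn ?_
        exact (continuous_subtype_val.comp (continuous_projIcc.comp continuous_fst)).prodMk
          continuous_snd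
    · intro t ht
      simp only [projIcc_of_mem hT'.1 ht]
  refine ⟨?_, ?_, ?_⟩
  · intro t0 ht0
    set T' := (t0 + T) / 2 with hT'
    have hT'm : T' ∈ Ico 0 T := ⟨by have := ht0.1; have := ht0.2; rw [hT']; linarith,
      by have := ht0.2; rw [hT']; linarith⟩
    have hlt : t0 < T' := by have := ht0.2; rw [hT']; linarith
    obtain ⟨G, hG, hGM⟩ := hext T' hT'm
    have hGs : Continuous fun t => sSup (G t '' cube d) :=
      (cube_compact d).continuous_sSup (f := G) hG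
    have hmem : Icc 0 T' ∈ 𝓝[Ico 0 T] t0 := by
      have h1 : Iic T' ∈ 𝓝[Ico 0 T] t0 := mem_nhdsWithin_of_mem_nhds (Iic_mem_nhds hlt)
      have h2 : Ico 0 T ∈ 𝓝[Ico 0 T] t0 := self_mem_nhdsWithin
      filter_upwards [h1, h2] with t h1 h2
      exact ⟨h2.1, h1⟩
    have heq : ∀ t ∈ Icc 0 T', (⨆ x, ∫ v, f t x v * (1 + ‖v‖) ^ p) = sSup (G t '' cube d) := by
      intro t ht
      have htT : t ∈ Ico 0 T := ⟨ht.1, lt_of_le_of_lt ht.2 hT'm.2⟩
      rw [hGM t ht, ← hrange t htT]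
      rfl
    refine (hGs.continuousAt.continuousWithinAt (s := Ico 0 T)).congr_of_eventuallyEq ?_
      (heq t0 ⟨ht0.1, hlt.le⟩)
    filter_upwards [hmem] with t ht
    exact heq t ht
  · intro t ht
    obtain ⟨G, hG, hGM⟩ := hext t ht
    have : BddAbove (M t '' cube d) := by
      rw [← hGM t ⟨ht.1, le_rfl⟩]
      refine ((cube_compact d).image ?_).bddAbove
      exact hG.comp (by fun_prop : Continuous fun x : E d => (t, x))
    rw [← hrange t ht] at this
    exact this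
  · intro t ht x
    obtain ⟨C, hC⟩ := hdec t ht (⌈p⌉₊ + d + 1)
    refine (bd_int d C).mono' (hmeas t ht x) ?_
    exact Eventually.of_forall fun v => bd v (hnn t ht x v) (hC t ⟨ht.1, le_rfl⟩ x v)

end Pool.Agent.H643.BZ
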