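import Pool.Agent.H43.BZ.Stm

/-!
# FIN: the weighted bound along classical solutions
-/

set_option autoImplicit false

open MeasureTheory Metric Set Filter Topology
open scoped RealInnerProductSpace ENNReal

namespace Pool.Agent.H643.BZ

open Pool.Agent.H43.BZ

theorem P_pos (d : ℕ) (v : E d) : 0 < P d v := by
  unfold P; positivity

theorem P_cont (d : ℕ) : Continuous (fun v : E d => P d v) := by
  unfold P
  refine Continuous.inv₀ (by fun_prop) fun v => by positivity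

theorem FIN (hc : S_CON) (hq : S_QLE) (hs : S_SUP) : S_FIN := by
  intro d hd s γ K hs0 hs1 hγ hγs hK
  obtain ⟨C, hC0, hC⟩ := hq d hd s γ K hs0 hs1 hγ hγs hK
  refine ⟨C, hC0, ?_⟩
  intro b hb T f hT hsol N hN t ht x v
  obtain ⟨hS1, hS2, hS3⟩ := hs d T (γ + 2 * s) f hT (by positivity) hsol.nonneg hsol.cont
    hsol.periodic hsol.decay
  have hsl : ∀ t ∈ Ico 0 T, ∀ x, Continuous (f t x) := by
    intro t ht x
    have h1 : ContinuousOn (fun v : E d => f t x v) univ := by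
      have := hsol.cont.comp (f := fun v : E d => ((t, x, v) : ℝ × E d × E d)) (s := univ)
        (by fun_prop) (fun v _ => ⟨ht, mem_univ _⟩)
      exact this
    exact continuousOn_univ.mp h1
  have hN0 : 0 ≤ N := by
    have h1 := hsol.nonneg 0 ⟨le_rfl, hT⟩ 0 0
    have h2 := hN 0 0
    by_contra h
    have := mul_neg_of_neg_of_pos (not_le.mp h) (P_pos d 0)
    linarith
  have key := hc d T f (fun t x v => Q γ b (f t x) v) (P d)
    (fun t => C * ⨆ y, ∫ w, f t y w * (1 + ‖w‖) ^ (γ + 2 * s)) N hT hN0 (P_pos d) (P_cont d)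
    hsol.cont hsol.periodic ?_ ?_ (continuousOn_const.mul hS1) ?_ ?_ hN t ht x v
  · rw [intervalIntegral.integral_const_mul] at key
    exact key
  · -- decay
    intro T' hT' ε hε
    obtain ⟨C1, hC1⟩ := hsol.decay T' hT' (8 * (d + 3) + 1)
    refine ⟨|C1| / ε, ?_⟩
    intro t ht x v hv
    have htT : t ∈ Ico 0 T := ⟨ht.1, lt_of_le_of_lt ht.2 hT'.2⟩
    have hf0 := hsol.nonneg t htT x v
    have h1 := hC1 t ht x v
    have hv0 := norm_nonneg v
    have h2 : |C1| ≤ ε * (1 + ‖v‖) := by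
      rw [div_le_iff₀ hε] at hv
      nlinarith
    have h3 : (1 + ‖v‖ ^ 2) ^ (4 * (d + 3)) ≤ (1 + ‖v‖) ^ (8 * (d + 3)) := by
      have : (1 + ‖v‖) ^ (8 * (d + 3)) = ((1 + ‖v‖) ^ 2) ^ (4 * (d + 3)) := by
        rw [← pow_mul]; ring_nf
      rw [this]
      exact pow_le_pow_left₀ (by positivity) (by nlinarith) _
    have h4 : f t x v * (1 + ‖v‖ ^ 2) ^ (4 * (d + 3)) ≤ ε := by
      have h5 : f t x v * (1 + ‖v‖ ^ 2) ^ (4 * (d + 3)) ≤ f t x v * (1 + ‖v‖) ^ (8 * (d + 3)) :=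
        mul_le_mul_of_nonneg_left h3 hf0
      refine h5.trans ?_
      have h6 : (1 + ‖v‖) * (f t x v * (1 + ‖v‖) ^ (8 * (d + 3))) ≤ (1 + ‖v‖) * ε := by
        calc (1 + ‖v‖) * (f t x v * (1 + ‖v‖) ^ (8 * (d + 3)))
            = (1 + ‖v‖) ^ (8 * (d + 3) + 1) * f t x v := by ring
          _ ≤ C1 := h1
          _ ≤ |C1| := le_abs_self _
          _ ≤ ε * (1 + ‖v‖) := h2
          _ = (1 + ‖v‖) * ε := by ring
      exact le_of_mul_le_mul_left h6 (by positivity)
    unfold P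
    rw [← div_eq_mul_inv, le_div_iff₀ (by positivity)]
    exact h4
  · -- derivative
    intro t ht x v
    have h1 := (hsol.diff t ht x v).hasFDerivAt
    have h2 : HasDerivAt (fun τ : ℝ => ((t + τ, x + τ • v) : ℝ × E d)) (1, v) 0 := by
      have a1 : HasDerivAt (fun τ : ℝ => t + τ) 1 0 := (hasDerivAt_id (0 : ℝ)).const_add t
      have a2 : HasDerivAt (fun τ : ℝ => x + τ • v) v 0 := by
        have := ((hasDerivAt_id (0 : ℝ)).smul_const v).const_add x
        rw [one_smul] at this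
        exact this
      exact a1.prodMk a2
    have h3 := h1.comp_hasDerivAt_of_eq (0 : ℝ) h2 (by simp)
    rw [hsol.eqn t ht x v] at h3
    exact h3
  · -- nonnegativity
    intro t ht
    refine mul_nonneg hC0 (Real.iSup_nonneg fun y => integral_nonneg fun w => ?_)
    exact mul_nonneg (hsol.nonneg t ht y w) (Real.rpow_nonneg (by positivity) _)
  · -- contact
    intro t ht x v A hA hfA hfe
    have htI : t ∈ Ico 0 T := ⟨ht.1.le, ht.2⟩
    have h1 := hC b hb (f t x) (hsl t htI x).measurable (hsol.nonneg t htI x) A hfA v hfe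
      (hsol.conv t ht x v) (hS3 t htI x)
    have h2 : ∫ w, f t x w * (1 + ‖w‖) ^ (γ + 2 * s) ≤
        ⨆ y, ∫ w, f t y w * (1 + ‖w‖) ^ (γ + 2 * s) := le_ciSup (hS2 t htI) x
    have h3 : 0 ≤ C * (A * P d v) := mul_nonneg hC0 (mul_nonneg hA.le (P_pos d v).le)
    calc Q γ b (f t x) v ≤ C * (A * P d v) * ∫ w, f t x w * (1 + ‖w‖) ^ (γ + 2 * s) := h1
      _ ≤ C * (A * P d v) * ⨆ y, ∫ w, f t y w * (1 + ‖w‖) ^ (γ + 2 * s) :=
          mul_le_mul_of_nonneg_left h2 h3
      _ = (C * ⨆ y, ∫ w, f t y w * (1 + ‖w‖) ^ (γ + 2 * s)) * (A * P d v) := by ring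

end Pool.Agent.H643.BZ
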